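import Pool.Agent.H6.TP.Targets
import Pool.Agent.H93.EB.Targets

/-!
# The joint: passage to the statements of `Pool.Agent.H93.EB`
-/

set_option autoImplicit false

open Finset Pool.Agent.H6.N4D

namespace Pool.Agent.H6.TP

open Pool.Agent.H93.EB (cr M phi lg ind t Str Base)

/-- TRN. The two sets of definitions agree. -/
def T_TRN : Prop :=
  (∀ (lam : ℕ → ℝ) (N n : ℕ) (θ : ℝ), ‖cr lam N n θ‖ = cor lam N n θ) ∧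
  (∀ (lam : ℕ → ℝ) (N n : ℕ), M lam N n = Mx lam N n) ∧ (∀ x : ℝ, phi x = ph x) ∧
  (∀ (X : ℕ) (E : ℕ → Prop), lg X (fun n => ind (E n)) =
    open Classical in ∑ n ∈ (Icc 1 X).filter E, 1 / (n : ℝ))

/-- SHL. Shifts and logarithmic sums. -/
def T_SHL : Prop := ∀ (X j : ℕ) (a : ℕ → ℝ), 1 ≤ X → (∀ n, 0 ≤ a n ∧ a n ≤ 1) →
  ∑ n ∈ Icc 1 X, a (n + j) / n ≤ ∑ n ∈ Icc 1 X, a n / n + 2 * (1 + Real.log (1 + j))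

open Classical in
/-- NGN. From the mean of the largest correlation to the mean energy. -/
def T_NGN : Prop := ∀ ε : ℝ, 0 < ε → ∃ κ s c X₀ : ℝ, 0 < κ ∧ 0 < s ∧ 0 < c ∧
  ∀ (X : ℕ) (a : ℕ → ℝ) (E : ℕ → Prop), X₀ ≤ X → (∀ n, 0 ≤ a n ∧ a n ≤ 1) →
    (∀ n, 1 ≤ n → ¬ E n → a n ≤ 2 / Real.pi + s) →
    ∑ n ∈ (Icc 1 X).filter E, 1 / (n : ℝ) ≤ κ * Real.log X →
    (2 / Real.pi - c) * Real.log X ≤ ∑ n ∈ Icc 1 X, a n / n →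
    (ph (2 / Real.pi) - ε) * Real.log X ≤ ∑ n ∈ Icc 1 X, ph (a n) / n

/-- SIZ. The size of `2 ^ k`. -/
def T_SZK : Prop := ∃ X₀ : ℝ, ∀ (X : ℕ), X₀ ≤ X →
  (∀ H : ℕ, Real.log H ≤ 2 * Real.log X ^ (24 / 25 : ℝ) → (H : ℝ) ≤ (X : ℝ) ^ (1 / 4 : ℝ)) ∧
  (∀ k : ℕ, (k : ℝ) ≤ 2 * Real.log X ^ (24 / 25 : ℝ) → ((2 ^ k : ℕ) : ℝ) ≤ (X : ℝ) ^ (1 / 4 : ℝ)) ∧
  ∃ k : ℕ, (k : ℝ) ≤ 2 * Real.log X ^ (24 / 25 : ℝ) ∧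
    Real.exp (Real.log X ^ (24 / 25 : ℝ)) ≤ ((2 ^ k : ℕ) : ℝ) ∧
    Real.log X ^ (23 / 25 : ℝ) ≤ k

end Pool.Agent.H6.TP
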