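import Pool.Agent.H93.ES.Targets
import Pool.Agent.H46.DE.DCR
import Pool.Agent.H46.DE.UNI
import Pool.Agent.H93.DE.PIL
import Pool.Agent.H72.EN.Full
import Pool.Agent.H40.ES.BK
import Pool.Agent.H53.ES.BLL
import Pool.Agent.H1.ES.BLU
import Pool.Agent.H25.ES.CHA
import Pool.Agent.H79.ES.CND
import Pool.Agent.H26.ES.COV
import Pool.Agent.H87.ES.DET
import Pool.Agent.H4.ES.DVF
import Pool.Agent.H14.ES.DVO
import Pool.Agent.H40.ES.EBS
import Pool.Agent.H89.ES.ENB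
import Pool.Agent.H69.ES.END
import Pool.Agent.H10.ES.EXA
import Pool.Agent.H95.ES.FAM
import Pool.Agent.H36.ES.HFC
import Pool.Agent.H36.ES.HFT
import Pool.Agent.H97.ESS.LSV
import Pool.Agent.H76.ES.LV
import Pool.Agent.H37.ES.LVD
import Pool.Agent.H95.ES.MEA
import Pool.Agent.H5.ES.MNT
import Pool.Agent.H1.ES.QSU
import Pool.Agent.H37.ES.STA
import Pool.Agent.H42.ES.WIN
import Pool.Agent.H4.ES.WN1
import Pool.Agent.H17.ES.WN2
import Pool.Agent.H17.ES.WN3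
import Pool.Agent.H1.ES.ABL
import Pool.Agent.H70.ES.LVA

/-!
# The board es_modules: the rows without hypotheses
-/

set_option autoImplicit false

namespace Pool.Agent.H6.TP.Es

open Pool.Agent.H93.ES Pool.Agent.H93.DE

theorem tUNI : T_UNI := Pool.Agent.H46.DE.pf_UNI
theorem tDCR : T_DCR := Pool.Agent.H46.DE.pf_DCR tUNI
theorem tPIL : T_PIL := Pool.Agent.H93.DE.pf_PIL
theorem tFAM : T_FAM := Pool.Agent.H95.ES.pf_FAM
theorem tCND : T_CND := Pool.Agent.H79.ES.pf_CND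
theorem tSTA : T_STA := Pool.Agent.H37.ES.pf_STA tUNI tFAM
theorem tMNT : T_MNT := Pool.Agent.H5.ES.pf_MNT tUNI tFAM tCND
theorem tLVD : T_LVD := Pool.Agent.H37.ES.pf_LVD tDCR
theorem tEND : T_END := Pool.Agent.H69.ES.pf_END tUNI tFAM
theorem tCHA : T_CHA := Pool.Agent.H25.ES.pf_CHA tUNI tSTA tMNT tLVD tEND
theorem tDVF : T_DVF := Pool.Agent.H4.ES.pf_DVF
theorem tDVO : T_DVO := Pool.Agent.H14.ES.pf_DVO tUNI tDVF
theorem tHFC : T_HFC := Pool.Agent.H36.ES.pf_HFC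
theorem tHFT : T_HFT := Pool.Agent.H36.ES.pf_HFT
theorem tLSV : T_LSV := Pool.Agent.H97.ESS.pf_LSV
theorem tMEA : T_MEA := Pool.Agent.H95.ES.pf_MEA
theorem tEXA : T_EXA := Pool.Agent.H10.ES.pf_EXA tHFC tLSV tMEA tPIL
theorem tQSU : T_QSU := Pool.Agent.H1.ES.pf_QSU
theorem tCOV : T_COV := Pool.Agent.H26.ES.pf_COV
theorem tDET : T_DET := Pool.Agent.H87.ES.pf_DET Pool.Agent.H72.EN.far
theorem tWIN : T_WIN := Pool.Agent.H42.ES.pf_WIN
theorem tBLU : T_BLU := Pool.Agent.H1.ES.pf_BLU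
theorem tBLL : T_BLL := Pool.Agent.H53.ES.pf_BLL
theorem tWN1 : T_WN1 := Pool.Agent.H4.ES.pf_WN1
theorem tWN2 : T_WN2 := Pool.Agent.H17.ES.pf_WN2
theorem tWN3 : T_WN3 := Pool.Agent.H17.ES.pf_WN3
theorem tABL : T_ABL := Pool.Agent.H1.ES.pf_ABL tMEA
theorem tLVA : T_LVA := Pool.Agent.H70.ES.pf_LVA tDVO tEXA tABL tQSU
theorem tLV_of (hB : T_LVB) : T_LV := Pool.Agent.H76.ES.pf_LV tLVA hB tCOV tQSU
theorem tENB_of (h : T_WNT) : T_ENB := Pool.Agent.H89.ES.pf_ENB h tBLL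
theorem tEBS_of (hC : T_CY) (hW : T_WNT) : T_EBS :=
  Pool.Agent.H40.ES.pf_EBS (Pool.Agent.H40.ES.pf_BK hC tWIN tQSU) tBLU (tENB_of hW) tQSU tMNT

end Pool.Agent.H6.TP.Es
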