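import Pool.Agent.H6.TP.FinTwo
import Pool.Agent.H6.TP.EsOne
import Pool.Agent.H78.N4.ON3ALL
import Pool.Agent.H93.ES.CY
import Pool.Agent.H62.ES.WNT
import Pool.Agent.H81.ES.LVBF

/-!
# Local Fourier gap for windows of bounded length: without hypotheses
-/

set_option autoImplicit false

namespace Pool.Agent.H6.TP.Fin2

open Pool.Agent.H93.ES Pool.Agent.H6.TP.Es Pool.Agent.H6.TP.FinTwo

theorem tLVB : T_LVB := Pool.Agent.H81.ES.pf_LVB tUNI tDVO tHFT tMEA tDET tPIL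

theorem tLV : T_LV := tLV_of tLVB

theorem tCY : T_CY := Pool.Agent.H93.ES.pf_CY tLVA tLV tCHA

theorem tWNT : T_WNT := Pool.Agent.H62.ES.pf_WNT tWN1 tWN2 tWN3

theorem ebs : T_EBS := tEBS_of tCY tWNT

theorem stg : Pool.Agent.H93.EB.T_STG := stg_of ebs Pool.Agent.H78.N4.ON3.lv4

theorem fin2 : Pool.Agent.H93.EB.T_FIN2 := fin2_of ebs Pool.Agent.H78.N4.ON3.lv4

theorem plain : Pool.Agent.H22.N4.PlainA := Pool.Agent.H22.N4.plainA fin2

end Pool.Agent.H6.TP.Fin2
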