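import Pool.Agent.H6.TP.FIN
import Pool.Agent.H6.N4D.All
import Pool.Agent.H24.MR.Top
import Pool.Agent.H10.TP.CSM
import Pool.Agent.H11.TP.AVV
import Pool.Agent.H14.TP.PSU
import Pool.Agent.H14.TP.SWP
import Pool.Agent.H35.TP.NGN
import Pool.Agent.H38.TP.PTW
import Pool.Agent.H4.TP.EQC
import Pool.Agent.H46.TP.GEN
import Pool.Agent.H51.TP.PHS
import Pool.Agent.H54.TP.CSI
import Pool.Agent.H54.TP.FNL
import Pool.Agent.H67.TP.CSA
import Pool.Agent.H69.TP.ENP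
import Pool.Agent.H69.TP.MRS
import Pool.Agent.H79.TP.UPM
import Pool.Agent.H81.TP.MRW
import Pool.Agent.H86.TOPM.LIO
import Pool.Agent.H86.TOPM.TOP
import Pool.Agent.H91.TP.TRN
import Pool.Agent.H95.TP.TRG
import Pool.Agent.H97.TP.NRG
import Pool.Agent.H97.TP.RES

/-!
# The board top_modules, closed
-/

set_option autoImplicit false

namespace Pool.Agent.H6.TP.All

open Pool.Agent.H6.TP

theorem tTRG : T_TRG := Pool.Agent.H95.TP.pf_TRG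
theorem tEQC : T_EQC := Pool.Agent.H4.TP.pf_EQC tTRG
theorem tCSM : T_CSM := Pool.Agent.H10.TP.pf_CSM tEQC
theorem tCSI : T_CSI := Pool.Agent.H54.TP.pf_CSI
theorem tCSA : T_CSA := Pool.Agent.H67.TP.pf_CSA tEQC tCSI
theorem tPHS : T_PHS := Pool.Agent.H51.TP.pf_PHS
theorem tUPM : T_UPM := Pool.Agent.H79.TP.pf_UPM tCSA tPHS
theorem tLIO : T_LIO := Pool.Agent.H86.TOPM.LIO.pf_LIO
theorem tRES : T_RES := Pool.Agent.H97.TP.pf_RES
theorem tMRW : T_MRW := Pool.Agent.H81.TP.pf_MRW Pool.Agent.H24.MR.mr tLIO tRES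
theorem tMRS : T_MRS := Pool.Agent.H69.TP.pf_MRS tMRW
theorem tAVV : T_AVV := Pool.Agent.H11.TP.pf_AVV
theorem tNRG : T_NRG := Pool.Agent.H97.TP.pf_NRG tAVV
theorem tSWP : T_SWP := Pool.Agent.H14.TP.pf_SWP
theorem tGEN : T_GEN := Pool.Agent.H46.TP.pf_GEN tMRS tNRG tSWP
theorem tENP : T_ENP := Pool.Agent.H69.TP.pf_ENP
theorem tPTW : T_PTW := Pool.Agent.H38.TP.pf_PTW
theorem tTOP : T_TOP := Pool.Agent.H86.TOPM.TOP.pf_TOP tGEN tUPM tCSA tCSM tPHS tENP tPTW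
theorem tTRN : T_TRN := Pool.Agent.H91.TP.pf_TRN
theorem tSZK : T_SZK := Pool.Agent.H91.TP.pf_SZK
theorem tSHL : T_SHL := Pool.Agent.H91.TP.pf_SHL
theorem tNGN : T_NGN := Pool.Agent.H35.TP.pf_NGN
theorem tFNL : T_FNL := Pool.Agent.H54.TP.pf_FNL tTOP Pool.Agent.H6.N4D.All.tEND
theorem tUPB : Pool.Agent.H93.EB.T_UPB := Pool.Agent.H91.TP.pf_UPB tGEN tUPM tTRN tSZK
theorem tNEG : Pool.Agent.H93.EB.T_NEG := Pool.Agent.H91.TP.pf_NEG tNGN tGEN tUPM tTRN tSZK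
theorem tTPB : Pool.Agent.H93.EB.T_TOP := Pool.Agent.H91.TP.pf_TPB tTOP tTRN tSZK

end Pool.Agent.H6.TP.All
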