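import Pool.Agent.H6.N4D.Defs
import Pool.Agent.H24.MR.Interface

/-!
# From the energy at the top scale to the structure of windows: definitions

`cor lam N n θ` is the modulus of the mean of `lam m ee (-(θ m))` over the window `(n, n + N]`,
`Mx lam N n` its supremum over all real `θ`, and `ph` the convex function of the energy.
-/

set_option autoImplicit false

open Finset Pool.Agent.H6.N4D

namespace Pool.Agent.H6.TP

/-- the correlation of `lam` with an exponential on the window `(n, n + N]` -/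
noncomputable def cor (lam : ℕ → ℝ) (N n : ℕ) (θ : ℝ) : ℝ :=
  ‖(1 / (N : ℂ)) * ∑ m ∈ Ioc n (n + N), (lam m : ℂ) * ee (-(θ * m))‖

/-- the supremum over all frequencies -/
noncomputable def Mx (lam : ℕ → ℝ) (N n : ℕ) : ℝ := ⨆ θ : ℝ, cor lam N n θ

/-- the function of the energy -/
noncomputable def ph (x : ℝ) : ℝ := (max (x - 63 / 100) 0) ^ 2

/-- the sum of the correlations with the rational frequencies of denominator at most `Q` -/
noncomputable def SQ (lam : ℕ → ℝ) (Q H n : ℕ) : ℝ :=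
  ∑ q ∈ Icc 1 Q, ∑ a ∈ range q, cor lam H n ((a : ℝ) / q)

/-- `θ` is generic: `nd (q θ) ≥ η` for all `q ≤ R` -/
def Gen (R : ℕ) (η θ : ℝ) : Prop := ∀ q : ℕ, 1 ≤ q → q ≤ R → η ≤ nd (q * θ)

/-- the cosine wave with frequency `θ` and phase `φ` at the place `m` of the window after `n` -/
noncomputable def wv (n : ℕ) (θ φ : ℝ) (m : ℕ) : ℝ :=
  Real.cos (2 * Real.pi * (θ * ((m : ℝ) - n) + φ))

lemma cor_nonneg (lam : ℕ → ℝ) (N n : ℕ) (θ : ℝ) : 0 ≤ cor lam N n θ := norm_nonneg _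

/-- functions bounded by one have correlations at most one -/
lemma cor_le_one {lam : ℕ → ℝ} (h : ∀ n, |lam n| ≤ 1) (N n : ℕ) (θ : ℝ) :
    cor lam N n θ ≤ 1 := by
  unfold cor
  rcases Nat.eq_zero_or_pos N with h0 | h0
  · subst h0; simp
  rw [norm_mul, norm_div, norm_one, Complex.norm_natCast]
  have h1 : ‖∑ m ∈ Ioc n (n + N), (lam m : ℂ) * ee (-(θ * m))‖ ≤ N := by
    refine (norm_sum_le _ _).trans ?_
    calc ∑ m ∈ Ioc n (n + N), ‖(lam m : ℂ) * ee (-(θ * m))‖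
        ≤ ∑ _m ∈ Ioc n (n + N), (1 : ℝ) := by
          refine sum_le_sum fun m _ => ?_
          rw [norm_mul, norm_ee, mul_one, Complex.norm_real, Real.norm_eq_abs]
          exact h m
      _ = N := by simp
  have h2 : (0 : ℝ) < N := by exact_mod_cast h0
  rw [div_mul_eq_mul_div, one_mul, div_le_one h2]
  exact h1

lemma bdd_cor {lam : ℕ → ℝ} (h : ∀ n, |lam n| ≤ 1) (N n : ℕ) :
    BddAbove (Set.range fun θ : ℝ => cor lam N n θ) :=
  ⟨1, by rintro _ ⟨θ, rfl⟩; exact cor_le_one h N n θ⟩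

lemma cor_le_Mx {lam : ℕ → ℝ} (h : ∀ n, |lam n| ≤ 1) (N n : ℕ) (θ : ℝ) :
    cor lam N n θ ≤ Mx lam N n := le_ciSup (bdd_cor h N n) θ

lemma Mx_le {lam : ℕ → ℝ} {N n : ℕ} {c : ℝ} (h : ∀ θ, cor lam N n θ ≤ c) :
    Mx lam N n ≤ c := ciSup_le h

lemma Mx_nonneg {lam : ℕ → ℝ} (h : ∀ n, |lam n| ≤ 1) (N n : ℕ) : 0 ≤ Mx lam N n :=
  (cor_nonneg lam N n 0).trans (cor_le_Mx h N n 0)

lemma Mx_le_one {lam : ℕ → ℝ} (h : ∀ n, |lam n| ≤ 1) (N n : ℕ) : Mx lam N n ≤ 1 :=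
  Mx_le fun θ => cor_le_one h N n θ

/-- near maximizers -/
lemma exists_cor {lam : ℕ → ℝ} {N n : ℕ} {c : ℝ} (h : c < Mx lam N n) :
    ∃ θ, c < cor lam N n θ := exists_lt_of_lt_ciSup h

lemma lio_abs {lam : ℕ → ℝ} (h : Lio lam) (n : ℕ) : |lam n| ≤ 1 := by
  rcases h.pm n with h | h <;> rw [h] <;> simp

lemma lio_sq {lam : ℕ → ℝ} (h : Lio lam) (n : ℕ) : |lam n| = 1 := by
  rcases h.pm n with h | h <;> rw [h] <;> simp

lemma SQ_nonneg (lam : ℕ → ℝ) (Q H n : ℕ) : 0 ≤ SQ lam Q H n :=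
  sum_nonneg fun _ _ => sum_nonneg fun _ _ => cor_nonneg _ _ _ _

lemma SQ_le {lam : ℕ → ℝ} (h : ∀ n, |lam n| ≤ 1) (Q H n : ℕ) : SQ lam Q H n ≤ (Q : ℝ) ^ 2 := by
  unfold SQ
  calc ∑ q ∈ Icc 1 Q, ∑ a ∈ range q, cor lam H n ((a : ℝ) / q)
      ≤ ∑ q ∈ Icc 1 Q, ∑ _a ∈ range q, (1 : ℝ) :=
        sum_le_sum fun _ _ => sum_le_sum fun _ _ => cor_le_one h _ _ _
    _ = ∑ q ∈ Icc 1 Q, (q : ℝ) := by simp
    _ ≤ ∑ _q ∈ Icc 1 Q, (Q : ℝ) := by
        refine sum_le_sum fun q hq => ?_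
        exact_mod_cast (mem_Icc.1 hq).2
    _ = (Q : ℝ) ^ 2 := by simp; ring

lemma ph_nonneg (x : ℝ) : 0 ≤ ph x := sq_nonneg _

lemma ph_mono {x y : ℝ} (h : x ≤ y) : ph x ≤ ph y := by
  unfold ph
  exact pow_le_pow_left₀ (le_max_right _ _) (max_le_max (by linarith) le_rfl) 2

end Pool.Agent.H6.TP
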