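import Pool.Agent.H6.TP.Targets2

/-!
# FIN1, FIN2: assembly of the energy argument and the end game
-/

set_option autoImplicit false

open Finset Pool.Agent.H6.N4D Pool.Agent.H6.TP Filter Topology

namespace Pool.Agent.H6.TP.FIN

open Pool.Agent.H93.EB (M phi lg ind t Str Base)

/-- sizes -/
lemma tendsto_L : Tendsto (fun X : ℕ => Real.log (X : ℝ)) atTop atTop :=
  Real.tendsto_log_atTop.comp tendsto_natCast_atTop_atTop

lemma tendsto_LL : Tendsto (fun X : ℕ => Real.log (Real.log (X : ℝ))) atTop atTop :=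
  Real.tendsto_log_atTop.comp tendsto_L

lemma ev_mul (K e r : ℝ) (he : 0 < e) (hr : 0 < r) :
    ∀ᶠ X : ℕ in atTop, K * Real.log (Real.log (X : ℝ)) ≤ e * Real.log (X : ℝ) ^ r := by
  have h0 := (isLittleO_log_rpow_atTop hr).bound
    (show (0 : ℝ) < e / (|K| + 1) by positivity)
  have h1 := tendsto_L.eventually h0
  filter_upwards [h1, tendsto_LL.eventually (eventually_ge_atTop 0),
    tendsto_L.eventually (eventually_ge_atTop 0)] with X h h2 h3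
  rw [Real.norm_of_nonneg h2, Real.norm_of_nonneg (Real.rpow_nonneg h3 _)] at h
  have hK : (0 : ℝ) < |K| + 1 := by positivity
  calc K * Real.log (Real.log X) ≤ (|K| + 1) * Real.log (Real.log X) := by
        apply mul_le_mul_of_nonneg_right _ h2
        linarith [le_abs_self K]
    _ ≤ (|K| + 1) * (e / (|K| + 1) * Real.log X ^ r) := mul_le_mul_of_nonneg_left h hK.le
    _ = e * Real.log X ^ r := by field_simp

/-- for large `X` everything of size `log log X` is small -/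
lemma big (K e : ℝ) (he : 0 < e) : ∃ X₀ : ℕ, ∀ X : ℕ, X₀ ≤ X →
    K ≤ Real.log (Real.log X) ∧ 1 ≤ Real.log (Real.log X) ∧ 1 ≤ Real.log (X : ℝ) ∧
    K ≤ Real.log (X : ℝ) ∧
    K * Real.log (Real.log X) ≤ Real.log (X : ℝ) ^ (23 / 25 : ℝ) ∧
    K * Real.log (Real.log X) ≤ 2 * Real.log (X : ℝ) ^ (24 / 25 : ℝ) ∧
    K * Real.log (Real.log X) ≤ e * Real.log (X : ℝ) ∧ 3 ≤ X := by
  have h1 := tendsto_LL.eventually (eventually_ge_atTop (max K 1))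
  have h2 := tendsto_L.eventually (eventually_ge_atTop (max K 1))
  have h3 := ev_mul K 1 (23 / 25) one_pos (by norm_num)
  have h4 := ev_mul K 2 (24 / 25) two_pos (by norm_num)
  have h5 := ev_mul K e 1 he one_pos
  obtain ⟨X₀, h⟩ := eventually_atTop.1 (h1.and (h2.and (h3.and (h4.and (h5.and
    (eventually_ge_atTop 3))))))
  refine ⟨X₀, fun X hX => ?_⟩
  obtain ⟨a1, a2, a3, a4, a5, a6⟩ := h X hX
  refine ⟨(le_max_left _ _).trans a1, (le_max_right _ _).trans a1, (le_max_right _ _).trans a2,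
    (le_max_left _ _).trans a2, ?_, a4, ?_, a6⟩
  · simpa using a3
  · simpa using a5

/-- the energy is not almost maximal at the top scale -/
lemma top_contra (hFNL : T_FNL) (hSZK : T_SZK) (hTRN : T_TRN) : ∃ (κ : ℝ) (X₀ : ℕ), 0 < κ ∧
    ∀ (X : ℕ) (lam : ℕ → ℝ), X₀ ≤ X → Lio lam → ∃ k : ℕ,
      (k : ℝ) ≤ 2 * Real.log X ^ (24 / 25 : ℝ) ∧ Real.log X ^ (23 / 25 : ℝ) ≤ k ∧
      t lam X k ≤ phi (2 / Real.pi) - κ := by
  obtain ⟨κ, X₁, hκ, h1⟩ := hFNL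
  obtain ⟨X₂, h2⟩ := hSZK
  obtain ⟨X₃, h3⟩ := big 1 1 one_pos
  obtain ⟨-, hM, hph, -⟩ := hTRN
  refine ⟨κ, max (max ⌈X₁⌉₊ ⌈X₂⌉₊) X₃, hκ, fun X lam hX hl => ?_⟩
  have hX1 : X₁ ≤ X := (Nat.le_ceil _).trans (by
    exact_mod_cast (le_max_left _ _).trans ((le_max_left _ _).trans hX))
  have hX2 : X₂ ≤ X := (Nat.le_ceil _).trans (by
    exact_mod_cast (le_max_right _ _).trans ((le_max_left _ _).trans hX))
  obtain ⟨-, -, hL, -⟩ := h3 X ((le_max_right _ _).trans hX)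
  obtain ⟨-, hk, k, hk1, hk2, hk3⟩ := h2 X hX2
  refine ⟨k, hk1, hk3, ?_⟩
  have h4 := h1 (X : ℝ) (2 ^ k) lam hX1 hk2 (hk k hk1) hl
  rw [Nat.floor_natCast] at h4
  unfold t lg
  rw [div_le_iff₀ (by linarith)]
  rw [hph]
  calc ∑ n ∈ Icc 1 X, phi (M lam (2 ^ k) n) / n = ∑ n ∈ Icc 1 X, ph (Mx lam (2 ^ k) n) / n := by
        refine Finset.sum_congr rfl fun n _ => ?_
        rw [hph, hM]
    _ ≤ _ := h4

/-- structure at a small scale contradicts the end game -/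
lemma core (hEN : Pool.Agent.H93.EB.T_EN) (hBAS : Pool.Agent.H93.EB.T_BAS)
    (hTPB : Pool.Agent.H93.EB.T_TOP) (hFNL : T_FNL) (hSZK : T_SZK) (hTRN : T_TRN) :
    ∃ (B s₁ X₀ : ℕ) (ε e₁ : ℝ), 1 ≤ B ∧ 0 < ε ∧ 0 < e₁ ∧
    ∀ (X s k₀ : ℕ) (lam : ℕ → ℝ), X₀ ≤ X → Lio lam → s₁ ≤ s → (B + 1) * s ≤ k₀ →
      Real.log (Real.log X) ≤ 2 ^ (s / B) → (k₀ : ℝ) ≤ e₁ * Real.log X →
      (k₀ : ℝ) ≤ 2 * Real.log X ^ (24 / 25 : ℝ) → (k₀ : ℝ) ≤ Real.log X ^ (23 / 25 : ℝ) →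
      phi (2 / Real.pi) - ε ≤ t lam X k₀ → False := by
  obtain ⟨κ, X₁, hκ, h1⟩ := top_contra hFNL hSZK hTRN
  obtain ⟨B, hB, h2⟩ := hEN
  obtain ⟨e₂, he₂, h3⟩ := h2 (κ / 4) (by positivity)
  obtain ⟨δ, R, Q, hδ, h4⟩ := hBAS e₂ he₂
  obtain ⟨s₀, X₂, h5⟩ := h3 R
  obtain ⟨η, hη, h6⟩ := hTPB δ Q hδ
  obtain ⟨e₁, s₀', he₁, h7⟩ := h4 η hη
  obtain ⟨ε₃, k₀', X₃, hε₃, h8⟩ := h6 e₁ he₁
  refine ⟨B, max (max s₀ s₀') k₀', max X₁ (max X₂ X₃), min ε₃ (κ / 4), e₁, hB,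
    lt_min hε₃ (by positivity), he₁, fun X s k₀ lam hX hl hs hk hLL hk1 hk2 hk3 ht => ?_⟩
  have hs0 : s₀ ≤ s := (le_max_left _ _).trans ((le_max_left _ _).trans hs)
  have hs1 : s₀' ≤ s := (le_max_right _ _).trans ((le_max_left _ _).trans hs)
  have hs2 : k₀' ≤ s := (le_max_right _ _).trans hs
  have hX1 : X₁ ≤ X := (le_max_left _ _).trans hX
  have hX2 : X₂ ≤ X := (le_max_left _ _).trans ((le_max_right _ _).trans hX)
  have hX3 : X₃ ≤ X := (le_max_right _ _).trans ((le_max_right _ _).trans hX)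
  have hBs : s ≤ B * s := Nat.le_mul_of_pos_left s (by omega)
  have hk' : B * s + s ≤ k₀ := by
    have : (B + 1) * s = B * s + s := by ring
    omega
  obtain ⟨k, hka, hkb, hkc⟩ := h1 X lam hX1 hl
  have hStr := h8 X k₀ lam hX3 hl (by omega) hk2
    (by linarith [min_le_left ε₃ (κ / 4)])
  have hBase := h7 s k₀ X lam hs1 (by omega) hk1 hl.pm hStr
  have hkk : k₀ ≤ k := by
    have : (k₀ : ℝ) ≤ k := hk3.trans hkb
    exact_mod_cast this
  have := h5 s X lam hs0 hX2 hl hLL hBase k₀ k (by omega) hkk hka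
  linarith [min_le_right ε₃ (κ / 4)]

lemma pow_le_H {l : ℝ} {a B : ℕ} (hl : 1 ≤ l) (ha : ((2 : ℝ) ^ a) ≤ 4 * l) :
    ((2 ^ ((B + 1) * (B * a)) : ℕ) : ℝ) ≤ 4 ^ (B * (B + 1)) * l ^ (B * (B + 1)) := by
  have h : ((2 ^ ((B + 1) * (B * a)) : ℕ) : ℝ) = ((2 : ℝ) ^ a) ^ (B * (B + 1)) := by
    push_cast
    rw [← pow_mul]
    congr 1
    ring
  rw [h, ← mul_pow]
  exact pow_le_pow_left₀ (by positivity) ha _

theorem pf_FIN1 (hEN : Pool.Agent.H93.EB.T_EN) (hBAS : Pool.Agent.H93.EB.T_BAS)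
    (hMON : Pool.Agent.H93.EB.T_MON) (hNEG : Pool.Agent.H93.EB.T_NEG)
    (hTPB : Pool.Agent.H93.EB.T_TOP) (hFNL : T_FNL) (hSZK : T_SZK) (hTRN : T_TRN) :
    Pool.Agent.H93.EB.T_FIN1 := by
  obtain ⟨B, s₁, X₁, ε, e₁, hB, hε, he₁, h1⟩ := core hEN hBAS hTPB hFNL hSZK hTRN
  obtain ⟨cN, kN, X₂, hcN, h2⟩ := hNEG ε hε
  obtain ⟨C, hC, h3⟩ := hMON
  set D : ℕ := B * (B + 1) with hD
  set c : ℝ := min (cN / (1 + 3 * C)) 1 with hc
  have hc0 : 0 < c := lt_min (by positivity) one_pos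
  have hc1 : c * (1 + 3 * C) ≤ cN := by
    calc c * (1 + 3 * C) ≤ cN / (1 + 3 * C) * (1 + 3 * C) :=
          mul_le_mul_of_nonneg_right (min_le_left _ _) (by positivity)
      _ = cN := by field_simp
  have hcle : c ≤ 1 := min_le_right _ _
  -- the size of X
  set K : ℝ := max (max (4 ^ D / c) (1 / c)) (max (4 * D + 4) (4 * (2 : ℝ) ^ (s₁ + kN))) with hK
  obtain ⟨X₃, h4⟩ := big K e₁ he₁
  refine ⟨c, D + 1, max X₁ (max X₂ X₃), hc0, fun X H lam hX hl hH1 hH2 => ?_⟩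
  have hX1 : X₁ ≤ X := (le_max_left _ _).trans hX
  have hX2 : X₂ ≤ X := (le_max_left _ _).trans ((le_max_right _ _).trans hX)
  have hX3 : X₃ ≤ X := (le_max_right _ _).trans ((le_max_right _ _).trans hX)
  obtain ⟨b1, b2, b3, b4, b5, b6, b7, b8⟩ := h4 X hX3
  by_contra hcon
  push Not at hcon
  set l : ℝ := Real.log (Real.log X) with hldef
  set L : ℝ := Real.log (X : ℝ) with hLdef
  have hl0 : 0 ≤ l := by linarith
  -- the choice of a
  obtain ⟨a, ha1, ha2⟩ : ∃ a : ℕ, l ≤ 2 ^ a ∧ (2 : ℝ) ^ a ≤ 4 * l := by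
    refine ⟨Nat.clog 2 ⌈l⌉₊, ?_, ?_⟩
    · have : ⌈l⌉₊ ≤ 2 ^ Nat.clog 2 ⌈l⌉₊ := Nat.le_pow_clog (by norm_num) _
      calc l ≤ ⌈l⌉₊ := Nat.le_ceil _
        _ ≤ 2 ^ Nat.clog 2 ⌈l⌉₊ := by exact_mod_cast this
    · have hc' : (⌈l⌉₊ : ℝ) < l + 1 := Nat.ceil_lt_add_one hl0
      rcases Nat.lt_or_ge 1 ⌈l⌉₊ with h | h
      · have h5 : 2 ^ (Nat.clog 2 ⌈l⌉₊ - 1) < ⌈l⌉₊ := Nat.pow_pred_clog_lt_self (by norm_num) h
        have h6 : 0 < Nat.clog 2 ⌈l⌉₊ := Nat.clog_pos (by norm_num) h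
        have h7 : (2 : ℝ) ^ (Nat.clog 2 ⌈l⌉₊ - 1) < ⌈l⌉₊ := by exact_mod_cast h5
        have h8 : (2 : ℝ) ^ Nat.clog 2 ⌈l⌉₊ = 2 * 2 ^ (Nat.clog 2 ⌈l⌉₊ - 1) := by
          rw [← pow_succ']
          congr 1
          omega
        rw [h8]
        linarith
      · rw [Nat.clog_of_right_le_one h]
        simp
        linarith
  have hD1 : ((D : ℕ) : ℝ) = B * (B + 1) := by rw [hD]; push_cast; ring
  have hK1 : 4 ^ D / c ≤ K := (le_max_left _ _).trans (le_max_left _ _)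
  have hK2 : 1 / c ≤ K := (le_max_right _ _).trans (le_max_left _ _)
  have hK3 : 4 * (D : ℝ) + 4 ≤ K := (le_max_left _ _).trans (le_max_right _ _)
  have hK4 : 4 * (2 : ℝ) ^ (s₁ + kN) ≤ K := (le_max_right _ _).trans (le_max_right _ _)
  -- a is large
  have ha3 : s₁ + kN ≤ a := by
    by_contra hlt
    push Not at hlt
    have h5 : (2 : ℝ) ^ a ≤ 2 ^ (s₁ + kN) := pow_le_pow_right₀ (by norm_num) hlt.le
    have : (0 : ℝ) < 2 ^ (s₁ + kN) := by positivity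
    linarith
  have ha4 : (a : ℝ) ≤ 4 * l := by
    have : a < 2 ^ a := Nat.lt_two_pow_self
    have : (a : ℝ) < 2 ^ a := by exact_mod_cast this
    linarith
  -- the scale
  set k₀ : ℕ := (B + 1) * (B * a) with hk₀
  have hk0r : (k₀ : ℝ) ≤ K * l := by
    have : (k₀ : ℝ) = D * a := by rw [hk₀, hD1]; push_cast; ring
    rw [this]
    have hD0 : (0 : ℝ) ≤ D := Nat.cast_nonneg _
    calc (D : ℝ) * a ≤ D * (4 * l) := mul_le_mul_of_nonneg_left ha4 hD0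
      _ = (4 * D) * l := by ring
      _ ≤ K * l := mul_le_mul_of_nonneg_right (by linarith) hl0
  have hpow := pow_le_H (B := B) b2 ha2
  rw [← hD] at hpow
  have hlD : 0 < l ^ (D + 1) := by positivity
  have hHpos : (0 : ℝ) < H := lt_of_lt_of_le hlD hH1
  have hNH : ((2 ^ k₀ : ℕ) : ℝ) ≤ c * H := by
    calc ((2 ^ k₀ : ℕ) : ℝ) ≤ 4 ^ D * l ^ D := hpow
      _ ≤ (c * l) * l ^ D := by
          apply mul_le_mul_of_nonneg_right _ (by positivity)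
          rw [div_le_iff₀ hc0] at hK1
          calc (4 : ℝ) ^ D ≤ K * c := hK1
            _ ≤ l * c := mul_le_mul_of_nonneg_right b1 hc0.le
            _ = c * l := by ring
      _ = c * l ^ (D + 1) := by ring
      _ ≤ c * H := mul_le_mul_of_nonneg_left hH1 hc0.le
  have hNH' : 2 ^ k₀ ≤ H := by
    have : ((2 ^ k₀ : ℕ) : ℝ) ≤ H := hNH.trans (by
      calc c * (H : ℝ) ≤ 1 * H := mul_le_mul_of_nonneg_right hcle hHpos.le
        _ = H := one_mul _)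
    exact_mod_cast this
  have hmon := h3 X (2 ^ k₀) H lam b8 (fun n => lio_abs hl n) Nat.one_le_two_pow hNH'
  have hratio : ((2 ^ k₀ : ℕ) : ℝ) / H ≤ c := by
    rw [div_le_iff₀ hHpos]
    exact hNH
  have hL0 : 0 < L := by linarith
  have h1c : 1 ≤ c * L := by
    rw [div_le_iff₀ hc0] at hK2
    calc (1 : ℝ) ≤ K * c := hK2
      _ ≤ L * c := mul_le_mul_of_nonneg_right b4 hc0.le
      _ = c * L := mul_comm _ _
  have hlow : (2 / Real.pi - cN) * L ≤ lg X (fun n => M lam (2 ^ k₀) n) := by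
    have h5 : ((2 ^ k₀ : ℕ) : ℝ) / H * L + Real.log H + 1 ≤ 3 * c * L := by
      have h50 := mul_le_mul_of_nonneg_right hratio hL0.le
      linarith
    have h6 : C * (((2 ^ k₀ : ℕ) : ℝ) / H * L + Real.log H + 1) ≤ C * (3 * c * L) :=
      mul_le_mul_of_nonneg_left h5 hC.le
    have h7 : (2 / Real.pi - c) * L - C * (3 * c * L) ≤ lg X (fun n => M lam (2 ^ k₀) n) := by
      linarith
    have h8 : (2 / Real.pi - cN) * L ≤ (2 / Real.pi - c) * L - C * (3 * c * L) := by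
      have : (c * (1 + 3 * C)) * L ≤ cN * L := mul_le_mul_of_nonneg_right hc1 hL0.le
      linarith
    exact h8.trans h7
  have hB1 : a ≤ B * a := Nat.le_mul_of_pos_left a (by omega)
  have hkk : a ≤ k₀ := by
    rw [hk₀]
    calc a ≤ B * a := hB1
      _ ≤ (B + 1) * (B * a) := Nat.le_mul_of_pos_left _ (by omega)
  have ht := h2 X k₀ lam hX2 hl (by omega) (hk0r.trans b6) hlow
  refine h1 X (B * a) k₀ lam hX1 hl (by omega) le_rfl ?_ (hk0r.trans b7) (hk0r.trans b6)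
    (hk0r.trans b5) ht
  rw [Nat.mul_div_cancel_left a (by omega)]
  exact ha1

theorem pf_FIN2 (hEN : Pool.Agent.H93.EB.T_EN) (hBAS : Pool.Agent.H93.EB.T_BAS)
    (hSTG : Pool.Agent.H93.EB.T_STG) (hTPB : Pool.Agent.H93.EB.T_TOP) (hFNL : T_FNL)
    (hSZK : T_SZK) (hTRN : T_TRN) : Pool.Agent.H93.EB.T_FIN2 := by
  obtain ⟨B, s₁, X₁, ε, e₁, hB, hε, he₁, h1⟩ := core hEN hBAS hTPB hFNL hSZK hTRN
  obtain ⟨c₁, H₀, hc₁, h3⟩ := hSTG ((B + 1) * B) ε (Nat.mul_pos (by omega) (by omega)) hε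
  refine ⟨c₁, H₀, hc₁, fun H hH => ?_⟩
  obtain ⟨X₂, h4⟩ := h3 H hH
  set D : ℕ := (B + 1) * B with hD
  have hDpos : 0 < D := by positivity
  obtain ⟨X₃, h5⟩ := big (max 2 ((2 : ℝ) ^ (s₁ + 1) + 1)) e₁ he₁
  refine ⟨max X₁ (max X₂ X₃), fun X lam hX hl => ?_⟩
  have hX1 : X₁ ≤ X := (le_max_left _ _).trans hX
  have hX2 : X₂ ≤ X := (le_max_left _ _).trans ((le_max_right _ _).trans hX)
  have hX3 : X₃ ≤ X := (le_max_right _ _).trans ((le_max_right _ _).trans hX)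
  obtain ⟨b1, b2, b3, b4, b5, b6, b7, b8⟩ := h5 X hX3
  by_contra hcon
  push Not at hcon
  obtain ⟨k, hk1, hk2, hk3⟩ := h4 X lam hX2 hl hcon.le
  set l : ℝ := Real.log (Real.log X) with hldef
  set L : ℝ := Real.log (X : ℝ) with hLdef
  have hk4 : (k : ℝ) ≤ 2 * l := by
    have h6 : Real.log ((2 : ℝ) ^ k) ≤ l := Real.log_le_log (by positivity) hk2
    rw [Real.log_pow] at h6
    have h7 : (0.69 : ℝ) < Real.log 2 := by linarith [Real.log_two_gt_d9]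
    have h8 : (0 : ℝ) ≤ k := Nat.cast_nonneg _
    nlinarith
  have hk5 : (k : ℝ) ≤ max 2 ((2 : ℝ) ^ (s₁ + 1) + 1) * l :=
    hk4.trans (mul_le_mul_of_nonneg_right (le_max_left _ _) (by linarith))
  -- k is large
  have hs0 : s₁ + 1 ≤ k / D := by
    by_contra hlt
    push Not at hlt
    have h6 : (2 : ℝ) ^ (k / D) ≤ 2 ^ (s₁ + 1) := pow_le_pow_right₀ (by norm_num) hlt.le
    have h7 : (2 : ℝ) ^ (s₁ + 1) + 1 ≤ l := (le_max_right _ _).trans b1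
    linarith
  set s : ℕ := k / (B + 1) with hs
  have hsB : s / B = k / D := by rw [hs, Nat.div_div_eq_div_mul, hD]
  have hs1 : s₁ ≤ s := by
    have : s / B ≤ s := Nat.div_le_self _ _
    omega
  have hs2 : (B + 1) * s ≤ k := Nat.mul_div_le _ _
  have hfin : l ≤ 2 ^ (s / B) := by
    rw [hsB]
    exact hk1
  exact h1 X s k lam hX1 hl hs1 hs2 hfin (hk5.trans b7) (hk5.trans b6) (hk5.trans b5) hk3

end Pool.Agent.H6.TP.FIN
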