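import Pool.Agent.H6.TP.All
import Pool.Agent.H72.EN.Full
import Pool.Agent.H3.BES.Fin
import Pool.Agent.H84.BAS.BAS
import Pool.Agent.H89.ENM.MON

/-!
# Windows with sup inside: the theorem FIN1, without hypotheses
-/

set_option autoImplicit false

namespace Pool.Agent.H6.TP.Fin1

open Pool.Agent.H6.TP.All

theorem tEN : Pool.Agent.H93.EB.T_EN := Pool.Agent.H72.EN.en Pool.Agent.H3.BES.bes

theorem tMON : Pool.Agent.H93.EB.T_MON := Pool.Agent.H89.ENM.pf_MON Pool.Agent.H72.EN.mng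

theorem fin1 : Pool.Agent.H93.EB.T_FIN1 :=
  Pool.Agent.H6.TP.FIN.pf_FIN1 tEN Pool.Agent.H84.BAS.pf_BAS tMON tNEG tTPB tFNL tSZK tTRN

end Pool.Agent.H6.TP.Fin1
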