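import Pool.Agent.H6.TP.Fin1
import Pool.Agent.H70.EN.STG3
import Pool.Agent.H70.EN.Ad3
import Pool.Agent.H72.EN.All4
import Pool.Agent.H72.EN.Ebs
import Pool.Agent.H22.N4.Plain

/-!
# Windows of bounded length: from the inequality of Bessel and the inequality of one level
-/

set_option autoImplicit false

namespace Pool.Agent.H6.TP.FinTwo

open Pool.Agent.H6.TP.All Pool.Agent.H6.TP.Fin1

theorem stg_of (hB : Pool.Agent.H93.ES.T_EBS) (hL : Pool.Agent.H72.EN.T_LV4) :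
    Pool.Agent.H93.EB.T_STG :=
  Pool.Agent.H70.EN2.pf_STG3
    (Pool.Agent.H70.EN2.en3_of
      (Pool.Agent.H72.EN.en3_of_LV4 (Pool.Agent.H72.EN.bes4_of hB) hL))
    Pool.Agent.H84.BAS.pf_BAS tMON tNEG tTPB

theorem fin2_of (hB : Pool.Agent.H93.ES.T_EBS) (hL : Pool.Agent.H72.EN.T_LV4) :
    Pool.Agent.H93.EB.T_FIN2 :=
  Pool.Agent.H6.TP.FIN.pf_FIN2 tEN Pool.Agent.H84.BAS.pf_BAS (stg_of hB hL) tTPB tFNL tSZK tTRN

theorem plain_of (hB : Pool.Agent.H93.ES.T_EBS) (hL : Pool.Agent.H72.EN.T_LV4) :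
    Pool.Agent.H22.N4.PlainA :=
  Pool.Agent.H22.N4.plainA (fin2_of hB hL)

end Pool.Agent.H6.TP.FinTwo
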