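import Pool.Agent.H6.TP.Defs

/-!
# From the energy at the top scale to the structure of windows: targets
-/

set_option autoImplicit false

open Finset Pool.Agent.H6.N4D

namespace Pool.Agent.H6.TP

/-! ## sums -/

/-- PSU. Partial summation: from the natural to the logarithmic average. -/
def T_PSU : Prop := ∀ (F : ℕ → ℝ) (ε : ℝ) (N₀ : ℕ), (∀ n, 0 ≤ F n ∧ F n ≤ 1) → 0 ≤ ε →
  (∀ N : ℕ, N₀ ≤ N → ∑ z ∈ range N, F z ≤ ε * N) →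
  ∀ N : ℕ, 1 ≤ N → ∑ z ∈ Icc 1 N, F z / z ≤ ε * (3 + Real.log N) + N₀ + 2

/-- SWP. Averages over sub-windows: exchange of the sums. -/
def T_SWP : Prop := ∀ (B ε : ℝ) (N₀ : ℕ), 0 < B → 0 < ε → ∃ X₀ : ℝ, ∀ (S : ℕ → ℝ) (X : ℝ) (Y : ℕ),
  (∀ n, 0 ≤ S n ∧ S n ≤ B) → (∀ N : ℕ, N₀ ≤ N → ∑ z ∈ range N, S z ≤ ε * N) →
  X₀ ≤ X → N₀ ≤ Y → 1 ≤ Y → (Y : ℝ) ≤ X →
  ∑ n ∈ Icc 1 ⌊X⌋₊, 1 / (n : ℝ) * ((∑ u ∈ Ico n (n + Y), S u) / Y) ≤ 10 * ε * Real.log X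

/-- AVV. The mean over a window and the means over its short sub-windows. -/
def T_AVV : Prop := ∀ (g : ℕ → ℂ) (H Y n : ℕ), (∀ m, ‖g m‖ ≤ 1) → 1 ≤ H → H ≤ Y →
  ‖(1 / (Y : ℂ)) * ∑ m ∈ Ioc n (n + Y), g m‖ ≤
    (∑ u ∈ Ico n (n + Y), ‖(1 / (H : ℂ)) * ∑ m ∈ Ioc u (u + H), g m‖) / Y + 2 * (H / Y : ℝ)

/-! ## short windows and rational frequencies -/

/-- LIO. Such a function is Liouville's function up to its value at one. -/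
def T_LIO : Prop := ∀ lam : ℕ → ℝ, Lio lam → ∀ n : ℕ, 1 ≤ n →
  lam n = lam 1 * Pool.Agent.H24.MR.lam n

/-- RES. Decomposition of a short window into residue classes. -/
def T_RES : Prop := ∀ (lam : ℕ → ℝ) (q h n a : ℕ), (∀ m, |lam m| ≤ 1) → 1 ≤ q → 1 ≤ h →
  cor lam (q * h) n ((a : ℝ) / q) ≤
    ∑ b ∈ range q, |∑ y ∈ range h, lam (q * (n / q + y) + b)| / (q * h) + 2 / h

/-- MRW. The theorem of Matomaki and Radziwill for one rational frequency. -/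
def T_MRW : Prop := ∀ (q a : ℕ) (ε : ℝ), 1 ≤ q → 0 < ε → ∃ H₀ : ℕ, ∀ H : ℕ, H₀ ≤ H →
  ∃ N₀ : ℕ, ∀ N : ℕ, N₀ ≤ N → ∀ lam : ℕ → ℝ, Lio lam →
    ∑ n ∈ range N, cor lam H n ((a : ℝ) / q) ≤ ε * N

/-- MRS. The theorem of Matomaki and Radziwill for all rational frequencies with denominator at
most `Q`. -/
def T_MRS : Prop := ∀ (Q : ℕ) (ε : ℝ), 0 < ε → ∃ H₀ : ℕ, ∀ H : ℕ, H₀ ≤ H →
  ∃ N₀ : ℕ, ∀ N : ℕ, N₀ ≤ N → ∀ lam : ℕ → ℝ, Lio lam →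
    ∑ n ∈ range N, SQ lam Q H n ≤ ε * N

/-- NRG. A window with a frequency near a rational number. -/
def T_NRG : Prop := ∀ (lam : ℕ → ℝ) (Q q H Y n : ℕ) (θ η : ℝ), (∀ m, |lam m| ≤ 1) → 1 ≤ q →
  q ≤ Q → 1 ≤ H → H ≤ Y → nd (q * θ) ≤ η →
  cor lam Y n θ ≤ (∑ u ∈ Ico n (n + Y), SQ lam Q H u) / Y + 2 * (H / Y : ℝ) + 7 * η * H

open Classical in
/-- GEN. Outside a small set of windows all frequencies of a large correlation are generic. -/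
def T_GEN : Prop := ∀ (Q : ℕ) (κ : ℝ), 0 < κ → ∃ (η X₀ : ℝ) (Y₀ : ℕ), 0 < η ∧
  ∀ (X : ℝ) (Y : ℕ) (lam : ℕ → ℝ), X₀ ≤ X → Y₀ ≤ Y → (Y : ℝ) ≤ X → Lio lam →
    ∑ n ∈ (Icc 1 ⌊X⌋₊).filter (fun n : ℕ => ∃ θ : ℝ, 3 / 5 ≤ cor lam Y n θ ∧ ¬ Gen Q η θ),
      1 / (n : ℝ) ≤ κ * Real.log X

/-! ## equidistribution -/

/-- TRG. One exponential. -/
def T_TRG : Prop := ∀ (j : ℤ) (R n N : ℕ) (θ φ η : ℝ), j ≠ 0 → |j| ≤ R → 0 < η → Gen R η θ →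
  1 ≤ N → ‖(1 / (N : ℂ)) * ∑ m ∈ Ioc n (n + N), ee (j * (θ * ((m : ℝ) - n) + φ))‖ ≤ 1 / (η * N)

/-- EQC. Equidistribution for continuous functions of period one. -/
def T_EQC : Prop := ∀ f : ℝ → ℝ, Continuous f → (∀ x, f (x + 1) = f x) → ∀ s : ℝ, 0 < s →
  ∃ R : ℕ, ∀ η : ℝ, 0 < η → ∃ N₀ : ℕ, ∀ N : ℕ, N₀ ≤ N → ∀ (n : ℕ) (θ φ : ℝ), Gen R η θ →
    |(∑ m ∈ Ioc n (n + N), f (θ * ((m : ℝ) - n) + φ)) / N - ∫ x in (0 : ℝ)..1, f x| ≤ s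

/-- CSI. The mean of the modulus of the cosine. -/
def T_CSI : Prop := ∫ x in (0 : ℝ)..1, |Real.cos (2 * Real.pi * x)| = 2 / Real.pi

/-- CSA. The mean of the modulus of a generic wave. -/
def T_CSA : Prop := ∀ s : ℝ, 0 < s → ∃ R : ℕ, ∀ η : ℝ, 0 < η → ∃ N₀ : ℕ, ∀ N : ℕ, N₀ ≤ N →
  ∀ (n : ℕ) (θ φ : ℝ), Gen R η θ →
    |(∑ m ∈ Ioc n (n + N), |wv n θ φ m|) / N - 2 / Real.pi| ≤ s

/-- CSM. The small values of a generic wave. -/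
def T_CSM : Prop := ∀ ρ : ℝ, 0 < ρ → ρ ≤ 1 / 4 → ∃ R : ℕ, ∀ η : ℝ, 0 < η → ∃ N₀ : ℕ, ∀ N : ℕ,
  N₀ ≤ N → ∀ (n : ℕ) (θ φ : ℝ), Gen R η θ →
    (((Ioc n (n + N)).filter fun m : ℕ => |wv n θ φ m| ≤ ρ).card : ℝ) ≤ 4 * ρ * N

/-! ## the joint -/

/-- PHS. The modulus of a correlation is attained by a cosine. -/
def T_PHS : Prop := ∀ (lam : ℕ → ℝ) (N n : ℕ) (θ : ℝ), 1 ≤ N →
  (∃ φ : ℝ, (∑ m ∈ Ioc n (n + N), lam m * wv n θ φ m) / N = cor lam N n θ) ∧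
  ∀ φ : ℝ, (∑ m ∈ Ioc n (n + N), lam m * wv n θ φ m) / N ≤ cor lam N n θ

/-- UPM. Upper bound of the maximal correlation on a window without rational frequencies. -/
def T_UPM : Prop := ∀ s : ℝ, 0 < s → ∃ R : ℕ, ∀ η : ℝ, 0 < η → ∃ N₀ : ℕ, ∀ (N n : ℕ)
  (lam : ℕ → ℝ), N₀ ≤ N → (∀ m, |lam m| ≤ 1) → (∀ θ : ℝ, 3 / 5 ≤ cor lam N n θ → Gen R η θ) →
    Mx lam N n ≤ 2 / Real.pi + s

open Classical in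
/-- ENP. From the mean energy to most windows. -/
def T_ENP : Prop := ∀ κ₂ δ : ℝ, 0 < κ₂ → 0 < δ → ∃ κ s X₀ : ℝ, 0 < κ ∧ 0 < s ∧ s ≤ κ₂ ∧
  ∀ (X : ℝ) (a : ℕ → ℝ) (E : ℕ → Prop), X₀ ≤ X → (∀ n, 0 ≤ a n ∧ a n ≤ 1) →
    (∀ n, 1 ≤ n → ¬ E n → a n ≤ 2 / Real.pi + s) →
    ∑ n ∈ (Icc 1 ⌊X⌋₊).filter E, 1 / (n : ℝ) ≤ κ * Real.log X →
    (ph (2 / Real.pi) - κ) * Real.log X ≤ ∑ n ∈ Icc 1 ⌊X⌋₊, ph (a n) / n →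
    ∑ n ∈ (Icc 1 ⌊X⌋₊).filter (fun n => a n < 2 / Real.pi - κ₂), 1 / (n : ℝ) ≤ δ * Real.log X

open Classical in
/-- PTW. From a large correlation with a wave to the signs. -/
def T_PTW : Prop := ∀ (lam : ℕ → ℝ) (n Y : ℕ) (θ φ ρ κ₂ s e : ℝ), 1 ≤ Y → 0 < ρ → 0 ≤ κ₂ →
  0 ≤ s → (∀ m, |lam m| = 1) →
  2 / Real.pi - κ₂ ≤ (∑ m ∈ Ioc n (n + Y), lam m * wv n θ φ m) / Y →
  (∑ m ∈ Ioc n (n + Y), |wv n θ φ m|) / Y ≤ 2 / Real.pi + s →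
  (((Ioc n (n + Y)).filter fun m : ℕ => |wv n θ φ m| ≤ ρ).card : ℝ) ≤ 4 * ρ * Y →
  4 * ρ + (κ₂ + s) / (2 * ρ) ≤ e →
  (((Ioc n (n + Y)).filter fun m : ℕ => lam m * wv n θ φ m ≤ 0).card : ℝ) ≤ e * Y

open Classical in
/-- TOP. Almost maximal energy at one scale gives the structure of almost all windows. -/
def T_TOP : Prop := ∀ (δ : ℝ) (Q : ℕ), 0 < δ → ∃ η : ℝ, 0 < η ∧ ∀ e : ℝ, 0 < e →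
  ∃ (κ X₀ : ℝ) (Y₀ : ℕ), 0 < κ ∧ ∀ (X : ℝ) (Y : ℕ) (lam : ℕ → ℝ), X₀ ≤ X → Y₀ ≤ Y →
    (Y : ℝ) ≤ X → Lio lam →
    (ph (2 / Real.pi) - κ) * Real.log X ≤ ∑ n ∈ Icc 1 ⌊X⌋₊, ph (Mx lam Y n) / n →
    ∑ n ∈ (Icc 1 ⌊X⌋₊).filter (fun n : ℕ => ¬ GW lam Q η e Y n), 1 / (n : ℝ) ≤
      δ * Real.log X

/-- FNL. There is no scale of almost maximal energy near `exp ((log X) ^ (24/25))`. -/
def T_FNL : Prop := ∃ κ X₀ : ℝ, 0 < κ ∧ ∀ (X : ℝ) (Y : ℕ) (lam : ℕ → ℝ), X₀ ≤ X →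
  Real.exp (Real.log X ^ (24 / 25 : ℝ)) ≤ Y → (Y : ℝ) ≤ X ^ (1 / 4 : ℝ) → Lio lam →
  ∑ n ∈ Icc 1 ⌊X⌋₊, ph (Mx lam Y n) / n ≤ (ph (2 / Real.pi) - κ) * Real.log X

end Pool.Agent.H6.TP
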